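import Mathlib

/-!
# Sparse sets of representatives
-/

set_option autoImplicit false

namespace UnfThird

open Classical

universe u

variable {V : Type u}

/-- The subgraph of the edges joining two vertices of finite degree. -/
def FinPart (G : SimpleGraph V) : SimpleGraph V where
  Adj a b := G.Adj a b ∧ (G.neighborSet a).Finite ∧ (G.neighborSet b).Finite
  symm := ⟨fun _ _ h => ⟨h.1.symm, h.2.2, h.2.1⟩⟩
  loopless := ⟨fun a h => G.loopless.irrefl a h.1⟩

/-- The ball of radius `n`. -/
def Bl (G : SimpleGraph V) (n : ℕ) (a : V) : Set V :=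
  {b | ∃ p : (FinPart G).Walk a b, p.length ≤ n}

lemma bl_symm {G : SimpleGraph V} {n : ℕ} {a b : V} (h : b ∈ Bl G n a) : a ∈ Bl G n b := by
  obtain ⟨p, hp⟩ := h
  exact ⟨p.reverse, by rwa [SimpleGraph.Walk.length_reverse]⟩

lemma bl_finite (G : SimpleGraph V) (n : ℕ) : ∀ a, (Bl G n a).Finite := by
  induction n with
  | zero =>
    intro a
    refine (Set.finite_singleton a).subset ?_
    rintro b ⟨p, hp⟩
    cases p with
    | nil => exact rfl
    | cons h q => simp at hp
  | succ n ih =>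
    intro a
    by_cases ha : (G.neighborSet a).Finite
    · refine ((Set.finite_singleton a).union
        (ha.biUnion fun x _ => ih x)).subset ?_
      rintro b ⟨p, hp⟩
      cases p with
      | nil => exact Or.inl rfl
      | cons h q =>
        refine Or.inr (Set.mem_biUnion h.1 ⟨q, ?_⟩)
        rw [SimpleGraph.Walk.length_cons] at hp
        omega
    · refine (Set.finite_singleton a).subset ?_
      rintro b ⟨p, hp⟩
      cases p with
      | nil => exact rfl
      | cons h q => exact absurd h.2.1 ha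

/-- Sparse sets of representatives. -/
theorem exists_sparse [Countable V] (G : SimpleGraph V) (r : ℕ) (W : Set V) (N : V → Set V)
    (hN : ∀ u ∈ W, (N u).Infinite) :
    ∃ S : Set V, (∀ v ∈ S, ∃ u ∈ W, v ∈ N u) ∧ (∀ u ∈ W, {v | v ∈ N u ∧ v ∈ S}.Infinite) ∧
      ∀ a ∈ S, ∀ b ∈ S, a ≠ b → b ∉ Bl G r a := by
  rcases W.eq_empty_or_nonempty with hW | hW
  · refine ⟨∅, by simp, ?_, by simp⟩
    intro u hu
    rw [hW] at hu
    exact absurd hu (Set.notMem_empty u)
  obtain ⟨e, he⟩ : ∃ e : ℕ → V, (∀ n, e n ∈ W) ∧ ∀ u ∈ W, {n | e n = u}.Infinite := by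
    have hWn : Nonempty W := hW.to_subtype
    obtain ⟨g, hg⟩ := exists_surjective_nat W
    refine ⟨fun n => (g n.unpair.1).1, fun n => (g _).2, fun u hu => ?_⟩
    obtain ⟨m, hm⟩ := hg ⟨u, hu⟩
    refine Set.infinite_of_injective_forall_mem (f := fun k : ℕ => Nat.pair m k) ?_ ?_
    · intro k l hkl
      exact (Nat.pair_eq_pair.1 hkl).2
    · intro k
      show (g (Nat.pair m k).unpair.1).1 = u
      rw [Nat.unpair_pair, hm]
  have hch : ∀ (n : ℕ) (F : Finset V), ∃ x, x ∈ N (e n) ∧ x ∉ F ∧ ∀ y ∈ F, x ∉ Bl G r y := by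
    intro n F
    have h1 : ((F : Set V) ∪ ⋃ y ∈ (F : Set V), Bl G r y).Finite :=
      F.finite_toSet.union (F.finite_toSet.biUnion fun y _ => bl_finite G r y)
    obtain ⟨x, hx1, hx2⟩ := ((hN (e n) (he.1 n)).sdiff h1).nonempty
    rw [Set.mem_union, not_or] at hx2
    refine ⟨x, hx1, fun h => hx2.1 h, fun y hy h => hx2.2 (Set.mem_biUnion (Finset.mem_coe.2 hy) h)⟩
  choose x hx1 hx2 hx3 using hch
  let g : ℕ → Finset V := fun n => Nat.rec ∅ (fun n F => insert (x n F) F) n
  have hg0 : g 0 = ∅ := rfl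
  have hgs : ∀ n, g (n + 1) = insert (x n (g n)) (g n) := fun n => rfl
  have hgm : ∀ m n, m ≤ n → g m ⊆ g n := by
    intro m n hmn
    induction hmn with
    | refl => exact subset_rfl
    | step _ ih => rw [hgs]; exact ih.trans (Finset.subset_insert _ _)
  have hin : ∀ n, x n (g n) ∈ g (n + 1) := fun n => by rw [hgs]; exact Finset.mem_insert_self _ _
  have hmem : ∀ n a, a ∈ g n → ∃ m < n, a = x m (g m) := by
    intro n
    induction n with
    | zero => intro a ha; rw [hg0] at ha; exact absurd ha (Finset.notMem_empty a)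
    | succ n ih =>
      intro a ha
      rw [hgs, Finset.mem_insert] at ha
      rcases ha with rfl | ha
      · exact ⟨n, Nat.lt_succ_self n, rfl⟩
      · obtain ⟨m, hm, h⟩ := ih a ha
        exact ⟨m, hm.trans (Nat.lt_succ_self n), h⟩
  have hlt : ∀ m n, m < n → x n (g n) ∉ Bl G r (x m (g m)) ∧ x n (g n) ≠ x m (g m) := by
    intro m n hmn
    have h1 : x m (g m) ∈ g n := hgm (m + 1) n hmn (hin m)
    exact ⟨hx3 n (g n) _ h1, fun h => hx2 n (g n) (h ▸ h1)⟩
  refine ⟨Set.range fun n => x n (g n), ?_, ?_, ?_⟩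
  · rintro v ⟨n, rfl⟩
    exact ⟨e n, he.1 n, hx1 n (g n)⟩
  · intro u hu
    have h1 := he.2 u hu
    have hinj : Set.InjOn (fun n => x n (g n)) {n | e n = u} := by
      intro m _ n _ hmn
      rcases lt_trichotomy m n with h | h | h
      · exact absurd hmn.symm (hlt m n h).2
      · exact h
      · exact absurd hmn (hlt n m h).2
    refine (h1.image hinj).mono ?_
    rintro v ⟨n, hn, rfl⟩
    refine ⟨?_, n, rfl⟩
    have := hx1 n (g n)
    rw [hn] at this
    exact this
  · rintro a ⟨m, rfl⟩ b ⟨n, rfl⟩ hab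
    rcases lt_trichotomy m n with h | h | h
    · exact (hlt m n h).1
    · exact absurd (by rw [h]) hab
    · exact fun h2 => (hlt n m h).1 (bl_symm h2)

end UnfThird
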