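import Pool.Agent.Work.MP_1aab6d_third_helper47.Pres
import Pool.Agent.Work.MP_1aab6d_third_helper47.Sparse

/-!
# Two classes with a third of the neighbours on the other side

Every countable graph has a partition into two classes in which all vertices of infinite degree are
unfriendly and a vertex of finite degree `d` has at least `d / 3` neighbours in the other class.
-/

set_option autoImplicit false

namespace UnfThird

open Finset Classical Unf UnfL UnfE

universe u

lemma eps_univ' {V : Type*} (c : V → Bool) (x y : V) :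
    eps Set.univ c x y = if c y ≠ c x then 1 else -1 := by simp [eps]

/-! ### Ranks -/

theorem exists_ranks {V : Type u} (J : Set V) (N : V → Set V) (P : Set V → Set V)
    (hP : ∀ A B : Set V, A ⊆ B → P A ⊆ P B) :
    ∃ (W : Set V) (D : V → Set V), (∀ u ∈ W, u ∈ J ∧ {v | v ∈ N u ∧ v ∈ P W}.Infinite) ∧
      (∀ v, v ∉ P W → W ⊆ D v ∧ v ∉ P (D v)) ∧
      ∀ u ∈ J, u ∉ W → {v | v ∈ N u ∧ (v ∈ P W ∨ u ∉ D v)}.Finite := by
  let Φ : Set V →o Set V :=
    ⟨fun A => {u | u ∈ J ∧ {v | v ∈ N u ∧ v ∈ P A}.Infinite}, by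
      intro A B hAB u hu
      exact ⟨hu.1, hu.2.mono fun v hv => ⟨hv.1, hP A B hAB hv.2⟩⟩⟩
  have hΦ : ∀ (A : Set V) (u : V), u ∈ Φ A ↔ u ∈ J ∧ {v | v ∈ N u ∧ v ∈ P A}.Infinite :=
    fun A u => Iff.rfl
  set W : Set V := Φ.gfp with hW
  have hfix : Φ W = W := Φ.map_gfp
  obtain ⟨o, ho⟩ : W ∈ Set.range (OrdinalApprox.gfpApprox Φ ⊤) :=
    OrdinalApprox.gfp_mem_range_gfpApprox Φ
  have hWA : ∀ a, W ⊆ OrdinalApprox.gfpApprox Φ ⊤ a := fun a =>
    OrdinalApprox.le_gfpApprox_of_mem_fixedPoints Φ hfix le_top a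
  have hex : ∀ v, v ∉ P W → ∃ a, v ∉ P (OrdinalApprox.gfpApprox Φ ⊤ a) := fun v hv =>
    ⟨o, by rw [ho]; exact hv⟩
  have hmin : ∀ v, ∃ a, v ∉ P W → (v ∉ P (OrdinalApprox.gfpApprox Φ ⊤ a) ∧
      ∀ b < a, v ∈ P (OrdinalApprox.gfpApprox Φ ⊤ b)) := by
    intro v
    by_cases hv : v ∈ P W
    · exact ⟨0, fun h => absurd hv h⟩
    · obtain ⟨a, ha, hb⟩ := WellFounded.has_min (wellFounded_lt (α := Ordinal.{u}))
        {a | v ∉ P (OrdinalApprox.gfpApprox Φ ⊤ a)} (hex v hv)
      refine ⟨a, fun _ => ⟨ha, fun b hba => ?_⟩⟩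
      by_contra h
      exact hb b h hba
  choose ξ hξ using hmin
  have hout : ∀ (u : V) (a : Ordinal.{u}), u ∉ OrdinalApprox.gfpApprox Φ ⊤ a →
      ∃ b < a, u ∉ Φ (OrdinalApprox.gfpApprox Φ ⊤ b) := by
    intro u a hu
    rw [OrdinalApprox.gfpApprox] at hu
    by_contra h
    push Not at h
    refine hu ⟨trivial, ?_⟩
    simp only [Set.iInf_eq_iInter, Set.mem_iInter]
    exact h
  refine ⟨W, fun v => OrdinalApprox.gfpApprox Φ ⊤ (ξ v), ?_, ?_, ?_⟩
  · intro u hu
    rw [← hfix] at hu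
    exact (hΦ W u).1 hu
  · intro v hv
    exact ⟨hWA _, (hξ v hv).1⟩
  · intro u hu huW
    obtain ⟨b0, hb0, hb1⟩ := WellFounded.has_min (wellFounded_lt (α := Ordinal.{u}))
      {b | u ∉ Φ (OrdinalApprox.gfpApprox Φ ⊤ b)} (by
        rw [← ho] at huW
        obtain ⟨b, _, hb⟩ := hout u o huW
        exact ⟨b, hb⟩)
    have hfin : {v | v ∈ N u ∧ v ∈ P (OrdinalApprox.gfpApprox Φ ⊤ b0)}.Finite := by
      by_contra h
      exact hb0 ((hΦ _ u).2 ⟨hu, h⟩)
    refine hfin.subset ?_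
    rintro v ⟨hv1, hv2⟩
    refine ⟨hv1, ?_⟩
    by_cases hvW : v ∈ P W
    · exact hP _ _ (hWA b0) hvW
    · have hv3 : u ∉ OrdinalApprox.gfpApprox Φ ⊤ (ξ v) := by
        rcases hv2 with h | h
        · exact absurd h hvW
        · exact h
      obtain ⟨b, hb, hub⟩ := hout u (ξ v) hv3
      have h1 : ¬ b < b0 := hb1 b hub
      exact (hξ v hvW).2 b0 (lt_of_le_of_lt (not_lt.1 h1) hb)

/-! ### The theorem -/

section

variable {V : Type u} (G : SimpleGraph V) (t : V → ℕ)

/-- The vertices of finite degree with at least `t v` neighbours of infinite degree in `A`. -/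
def PP (A : Set V) : Set V :=
  {v | ¬ Inf G v ∧ t v ≤ {w | G.Adj v w ∧ Inf G w ∧ w ∈ A}.ncard}

lemma PP_mono (A B : Set V) (h : A ⊆ B) : PP G t A ⊆ PP G t B := by
  rintro v ⟨hv, h1⟩
  refine ⟨hv, h1.trans (Set.ncard_le_ncard (fun w hw => ⟨hw.1, hw.2.1, h hw.2.2⟩) ?_)⟩
  refine Set.Finite.subset (s := G.neighborSet v) ?_ fun w hw => hw.1
  by_contra h2
  exact hv h2

variable (D : V → Set V)

/-- The kept edges: an edge between a vertex `v` of finite degree and a vertex `w` of infinite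
degree is kept if `w ∉ D v`. -/
def Kp : SimpleGraph V where
  Adj a b := G.Adj a b ∧ ¬ (Inf G a ∧ Inf G b) ∧ (Inf G b → b ∉ D a) ∧ (Inf G a → a ∉ D b)
  symm := ⟨fun _ _ h => ⟨h.1.symm, fun h1 => h.2.1 ⟨h1.2, h1.1⟩, h.2.2.2, h.2.2.1⟩⟩
  loopless := ⟨fun a h => G.loopless.irrefl a h.1⟩

end

variable {V : Type u}

theorem main [Countable V] (G : SimpleGraph V) (t : V → ℕ) (r : ℕ) :
    ∃ (c : V → Bool) (S : Set V), (∀ u, Inf G u → {w | G.Adj u w ∧ c w ≠ c u}.Infinite) ∧
      (∀ v ∈ S, ¬ Inf G v ∧ t v ≤ {w | G.Adj v w ∧ Inf G w ∧ c w ≠ c v}.ncard) ∧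
      (∀ v, ¬ Inf G v → v ∉ S → (G.neighborSet v).ncard ≤
            2 * {w | G.Adj v w ∧ c w ≠ c v}.ncard +
              min {w | G.Adj v w ∧ Inf G w}.ncard (t v - 1)) ∧
      ∀ a ∈ S, ∀ b ∈ S, a ≠ b → b ∉ Bl G r a := by
  obtain ⟨f, hf⟩ := exists_injective_nat V
  obtain ⟨W, D, hW, hD, hK⟩ := exists_ranks {u | Inf G u} (fun u => {v | G.Adj u v ∧ ¬ Inf G v})
    (PP G t) (PP_mono G t)
  obtain ⟨S, hS1, hS2, hS3⟩ := exists_sparse G r W (fun u => {v | G.Adj u v ∧ v ∈ PP G t W})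
    (fun u hu => (hW u hu).2.mono fun v hv => ⟨hv.1.1, hv.2⟩)
  have hSP : ∀ v ∈ S, v ∈ PP G t W := by
    intro v hv
    obtain ⟨u, _, hu⟩ := hS1 v hv
    exact hu.2
  have hSI : ∀ v ∈ S, ¬ Inf G v := fun v hv => (hSP v hv).1
  set D2 : V → Set V := fun v => if v ∈ PP G t W then ∅ else D v \ W with hD2
  set T : Set V := {v | ¬ Inf G v ∧ v ∉ S} with hT
  set P : Set V := {u | (Inf G u ∧ u ∉ W) ∨ u ∈ S} with hP
  set Γ := Kp G D2 with hΓ
  have hle : ∀ a b, Γ.Adj a b → G.Adj a b := fun a b h => h.1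
  have hIΓ : ∀ x, ¬ Inf G x → ¬ Inf Γ x := fun x hx h =>
    hx (Set.Infinite.mono (fun y hy => hle x y hy) h)
  have hH : Hyp Γ T P f := by
    refine ⟨hf, fun x hx => hIΓ x hx.1, ?_, ?_⟩
    · rintro x hx (h1 | h1)
      · exact hx.1 h1.1
      · exact hx.2 h1
    · rintro u (hu | hu)
      · refine (hK u hu.1 hu.2).subset ?_
        rintro v ⟨hv, hadj⟩
        refine ⟨⟨hadj.1, hv.1⟩, ?_⟩
        by_cases hvP : v ∈ PP G t W
        · exact Or.inl hvP
        · right
          intro h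
          refine hadj.2.2.2 hu.1 ?_
          show u ∈ (if v ∈ PP G t W then ∅ else D v \ W)
          rw [if_neg hvP]
          exact ⟨h, hu.2⟩
      · have h1 : (Γ.neighborSet u).Finite := by
          by_contra h
          exact hIΓ u (hSI u hu) h
        exact h1.subset fun v hv => hv.2
  set A : Set V := {u | Inf G u ∧ u ∉ W} with hA
  obtain ⟨c, hc1, hc2, hc3, hc4⟩ := dyn hH (fun u => {v | G.Adj u v}) A
    (fun u hu => Or.inl hu) (fun u hu => hu.1)
  have hcW : ∀ v ∈ W, c v = false := by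
    intro v hv
    refine hc3 v (fun h => h.1 (hW v hv).1) ?_
    rintro (h | h)
    · exact h.2 hv
    · exact hSI v h (hW v hv).1
  have hcS : ∀ v ∈ S, c v = true := by
    intro v hv
    exact hc2 v (Or.inr hv) fun h => hSI v hv h.1
  refine ⟨c, S, fun u hu => ?_, fun v hv => ⟨hSI v hv, ?_⟩, fun v hv hvS => ?_, hS3⟩
  · by_cases huW : u ∈ W
    · refine (hS2 u huW).mono ?_
      rintro v ⟨hv1, hv2⟩
      refine ⟨hv1.1, ?_⟩
      rw [hcS v hv2, hcW u huW]
      decide
    · exact hc1 u ⟨hu, huW⟩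
  · have hNf : (G.neighborSet v).Finite := by
      by_contra h
      exact hSI v hv h
    refine (hSP v hv).2.trans (Set.ncard_le_ncard ?_ (hNf.subset fun w hw => hw.1))
    rintro w ⟨hw1, hw2, hw3⟩
    refine ⟨hw1, hw2, ?_⟩
    rw [hcW w hw3, hcS v hv]
    decide
  · have hNf : (G.neighborSet v).Finite := by
      by_contra h
      exact hv h
    have hvT : v ∈ T := ⟨hv, hvS⟩
    have hsum : 0 ≤ ∑ y ∈ nb Γ v, eps Set.univ c v y := by
      rw [← en_single]
      exact hc4 v hvT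
    -- the neighbours
    set N : Finset V := hNf.toFinset with hN
    have hmN : ∀ w, w ∈ N ↔ G.Adj v w := fun w => by rw [hN, Set.Finite.mem_toFinset]; rfl
    have hNc : (G.neighborSet v).ncard = N.card := Set.ncard_eq_toFinset_card _ hNf
    set O : Finset V := N.filter (fun w => c w ≠ c v) with hO
    have hOc : {w | G.Adj v w ∧ c w ≠ c v}.ncard = O.card := by
      rw [← Set.ncard_coe_finset]
      congr 1
      ext w
      rw [Finset.mem_coe, hO, Finset.mem_filter, hmN]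
      rfl
    set Dv : Finset V := N.filter (fun w => Inf G w ∧ w ∈ D2 v) with hDv
    have hDc : {w | G.Adj v w ∧ Inf G w ∧ w ∈ D2 v}.ncard = Dv.card := by
      rw [← Set.ncard_coe_finset]
      congr 1
      ext w
      rw [Finset.mem_coe, hDv, Finset.mem_filter, hmN]
      rfl
    have hD1 : Dv.card ≤ {w | G.Adj v w ∧ Inf G w}.ncard := by
      rw [← hDc]
      exact Set.ncard_le_ncard (fun w hw => ⟨hw.1, hw.2.1⟩) (hNf.subset fun w hw => hw.1)
    have hDt : Dv.card ≤ t v - 1 := by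
      by_cases hvP : v ∈ PP G t W
      · have : Dv = ∅ := by
          rw [hDv, Finset.filter_eq_empty_iff]
          intro w _ h
          have h2 : w ∈ (if v ∈ PP G t W then (∅ : Set V) else D v \ W) := h.2
          rw [if_pos hvP] at h2
          exact h2
        rw [this, Finset.card_empty]
        exact Nat.zero_le _
      · obtain ⟨_, hD3⟩ := hD v hvP
        have h1 : {w | G.Adj v w ∧ Inf G w ∧ w ∈ D v}.ncard < t v := by
          by_contra h
          exact hD3 ⟨hv, not_lt.1 h⟩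
        have h2 : Dv.card ≤ {w | G.Adj v w ∧ Inf G w ∧ w ∈ D v}.ncard := by
          rw [← hDc]
          refine Set.ncard_le_ncard ?_ (hNf.subset fun w hw => hw.1)
          rintro w ⟨hw1, hw2, hw3⟩
          have h2 : w ∈ (if v ∈ PP G t W then (∅ : Set V) else D v \ W) := hw3
          rw [if_neg hvP] at h2
          exact ⟨hw1, hw2, h2.1⟩
        omega
    have hnb : nb Γ v = N \ Dv := by
      ext w
      rw [mem_nb _ (hIΓ v hv), Finset.mem_sdiff, hDv, Finset.mem_filter, hmN]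
      constructor
      · intro h
        exact ⟨h.1, fun h2 => h.2.2.1 h2.2.1 h2.2.2⟩
      · rintro ⟨h1, h2⟩
        refine ⟨h1, fun h3 => hv h3.1, fun h3 h4 => h2 ⟨h1, h3, h4⟩, fun h3 => absurd h3 hv⟩
    have hsum2 : ∑ y ∈ nb Γ v, eps Set.univ c v y =
        ∑ y ∈ nb Γ v, (if c y ≠ c v then (1 : ℤ) else -1) :=
      Finset.sum_congr rfl fun y _ => eps_univ' c v y
    have hsum3 : ∑ y ∈ nb Γ v, (if c y ≠ c v then (1 : ℤ) else -1) =
        2 * ((nb Γ v).filter (fun y => c y ≠ c v)).card - (nb Γ v).card := by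
      rw [Finset.sum_ite, Finset.sum_const, Finset.sum_const]
      have h1 := Finset.card_filter_add_card_filter_not (s := nb Γ v) (fun y => c y ≠ c v)
      simp only [nsmul_eq_mul, mul_one, mul_neg]
      have h2 : (((nb Γ v).filter (fun y => c y ≠ c v)).card : ℤ) +
          ((nb Γ v).filter (fun y => ¬ c y ≠ c v)).card = (nb Γ v).card := by
        exact_mod_cast h1
      linarith
    have hfl : ((nb Γ v).filter (fun y => c y ≠ c v)).card ≤ O.card := by
      refine Finset.card_le_card ?_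
      rw [hnb, hO]
      intro w hw
      rw [Finset.mem_filter, Finset.mem_sdiff] at hw
      rw [Finset.mem_filter]
      exact ⟨hw.1.1, hw.2⟩
    have hcard : (nb Γ v).card + Dv.card = N.card := by
      rw [hnb]
      exact Finset.card_sdiff_add_card_eq_card (Finset.filter_subset _ _)
    rw [hsum2, hsum3] at hsum
    rw [hNc, hOc]
    omega

end UnfThird
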