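import Pool.Agent.Work.MP_1aab6d_co_ev.Top

/-!
# The multi-scale theorem with prescribed petals

As `UnfE.Hyp.dyn`, but the petals outside `A` get the colour `true`, and the vertices which are
neither petals nor in `T` get the colour `false`.
-/

set_option autoImplicit false

namespace UnfThird

open Finset Classical Unf UnfL UnfE

variable {V : Type*} {Γ : SimpleGraph V} {T P : Set V} {f : V → ℕ}

/-- The petals outside `A` have the colour `true`. -/
def PC (P A : Set V) (f : V → ℕ) : Set ((ℕ → Bool) × (ℕ → V → Bool)) :=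
  {p | ∀ v ∈ P, v ∉ A → p.1 (f v) = true}

/-- The vertices outside `T` and `P` have the colour `false`. -/
def OC (T P : Set V) : Set ((ℕ → Bool) × (ℕ → V → Bool)) :=
  {p | ∀ l, ∀ v, v ∉ T → v ∉ P → p.2 l v = false}

lemma isClosed_PC (P A : Set V) (f : V → ℕ) : IsClosed (PC P A f) := by
  have : PC P A f = ⋂ v ∈ {v | v ∈ P ∧ v ∉ A}, {p | p.1 (f v) = true} := by
    ext p
    simp only [PC, Set.mem_ofPred_eq, Set.mem_iInter]
    exact ⟨fun h v hv => h v hv.1 hv.2, fun h v h1 h2 => h v ⟨h1, h2⟩⟩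
  rw [this]
  refine isClosed_biInter fun v _ => ?_
  exact isClosed_eq ((continuous_apply (f v)).comp continuous_fst) continuous_const

lemma isClosed_OC (T P : Set V) : IsClosed (OC T P) := by
  have : OC T P = ⋂ l : ℕ, ⋂ v ∈ {v | v ∉ T ∧ v ∉ P}, {p | p.2 l v = false} := by
    ext p
    simp only [OC, Set.mem_ofPred_eq, Set.mem_iInter]
    exact ⟨fun h l v hv => h l v hv.1 hv.2, fun h l v h1 h2 => h l v ⟨h1, h2⟩⟩
  rw [this]
  refine isClosed_iInter fun l => isClosed_biInter fun v _ => ?_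
  exact isClosed_eq ((continuous_apply v).comp ((continuous_apply l).comp continuous_snd))
    continuous_const

lemma step_out {k : ℕ} {b : Bool} {y : V → Bool} {v : V} (hT : v ∉ T) (hP : v ∉ P) :
    step Γ T P f k b y v = y v := by
  unfold step
  split_ifs with h
  · have h1 : v ∉ (Dk Γ T P f k y).1 := fun h2 => hT (bk_sub _ v (Dk_sub_bk k y h2))
    unfold flp
    rw [if_neg h1]
    unfold s1
    rw [if_neg fun h2 => hP h2.1]
  · rfl

lemma down_out {b : ℕ → Bool} {y : V → Bool} {v : V} (hT : v ∉ T) (hP : v ∉ P) (n : ℕ) :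
    ∀ l, down Γ T P f b y l n v = y v := by
  induction n with
  | zero => intro l; rfl
  | succ n ih =>
    intro l
    show step Γ T P f l (b l) (down Γ T P f b y (l + 1) n) v = y v
    rw [step_out hT hP]
    exact ih (l + 1)

lemma tog_ne {k l : ℕ} (hkl : k ≠ l) (p : (ℕ → Bool) × (ℕ → V → Bool)) :
    (tog Γ T P f k p).1 l = p.1 l := by
  show Function.update p.1 k (!(p.1 k)) l = _
  rw [Function.update_of_ne (Ne.symm hkl)]

lemma tog_self (k : ℕ) (p : (ℕ → Bool) × (ℕ → V → Bool)) :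
    (tog Γ T P f k p).1 k = !(p.1 k) := by
  show Function.update p.1 k (!(p.1 k)) k = _
  rw [Function.update_self]

lemma tog_OC {p : (ℕ → Bool) × (ℕ → V → Bool)} (hp : p ∈ OC T P) (k : ℕ) :
    tog Γ T P f k p ∈ OC T P := by
  intro l v hT hP
  show (if l ≤ k then down Γ T P f (Function.update p.1 k (!(p.1 k))) (p.2 (k + 1)) l (k + 1 - l)
    else p.2 l) v = false
  split_ifs
  · rw [down_out hT hP]
    exact hp (k + 1) v hT hP
  · exact hp l v hT hP

lemma exists_presc (h : Hyp Γ T P f) (S : Finset V) (hS : ∀ v ∈ S, v ∈ P) :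
    ∃ p ∈ TH Γ T P f ∩ OC T P, ∀ v ∈ S, p.1 (f v) = true := by
  induction S using Finset.induction_on with
  | empty =>
    obtain ⟨c, h1, h2⟩ := ground h.fin (fun _ => false)
    refine ⟨(fun _ => false, fun _ => c), ⟨fun k => ⟨⟨?_, ?_, ?_⟩, ?_⟩, ?_⟩, by simp⟩
    · exact fun D hD => h2 D fun x hx => bk_sub k x (hD hx)
    · exact fun v hv => h2 {v} (by simpa using hv)
    · exact fun u hu _ => h1 u fun hT => h.dis u hT hu
    · rfl
    · exact fun l v hT _ => h1 v hT
  | insert a S ha ih =>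
    obtain ⟨p, hp, hpS⟩ := ih fun v hv => hS v (Finset.mem_insert_of_mem hv)
    by_cases h1 : p.1 (f a) = true
    · refine ⟨p, hp, fun v hv => ?_⟩
      rw [Finset.mem_insert] at hv
      rcases hv with rfl | hv
      · exact h1
      · exact hpS v hv
    · refine ⟨tog Γ T P f (f a) p, ⟨h.tog_mem hp.1 (f a), tog_OC hp.2 (f a)⟩, fun v hv => ?_⟩
      rw [Finset.mem_insert] at hv
      rcases hv with rfl | hv
      · rw [tog_self]
        cases h2 : p.1 (f v)
        · rfl
        · exact absurd h2 h1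
      · rw [tog_ne]
        · exact hpS v hv
        · intro h3
          exact ha (h.inj h3 ▸ hv)

/-- The space. -/
def Sp (Γ : SimpleGraph V) (T P : Set V) (f : V → ℕ) (A : Set V) :
    Set ((ℕ → Bool) × (ℕ → V → Bool)) :=
  (TH Γ T P f ∩ OC T P) ∩ PC P A f

lemma isClosed_Sp (A : Set V) : IsClosed (Sp Γ T P f A) :=
  (isClosed_TH.inter (isClosed_OC T P)).inter (isClosed_PC P A f)

lemma nonempty_Sp (h : Hyp Γ T P f) (A : Set V) : (Sp Γ T P f A).Nonempty := by
  have hc : IsCompact (TH Γ T P f ∩ OC T P) := (isClosed_TH.inter (isClosed_OC T P)).isCompact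
  have heq : PC P A f = ⋂ v : {v : V // v ∈ P ∧ v ∉ A}, {p | p.1 (f v.1) = true} := by
    ext p
    simp only [PC, Set.mem_ofPred_eq, Set.mem_iInter]
    exact ⟨fun h v => h v.1 v.2.1 v.2.2, fun h v h1 h2 => h ⟨v, h1, h2⟩⟩
  unfold Sp
  rw [heq]
  refine hc.inter_iInter_nonempty _ (fun v => ?_) fun u => ?_
  · exact isClosed_eq ((continuous_apply (f v.1)).comp continuous_fst) continuous_const
  · obtain ⟨p, hp, hpS⟩ := exists_presc h (u.image (fun v => v.1)) (by
      intro v hv
      rw [Finset.mem_image] at hv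
      obtain ⟨w, _, rfl⟩ := hv
      exact w.2.1)
    refine ⟨p, hp, ?_⟩
    simp only [Set.mem_iInter, Set.mem_ofPred_eq]
    intro v hv
    exact hpS v.1 (Finset.mem_image_of_mem _ hv)

/-- The multi-scale theorem with prescribed petals. -/
theorem dyn [Countable V] (h : Hyp Γ T P f) (Nb : V → Set V) (A : Set V) (hA : A ⊆ P)
    (hNb : ∀ u ∈ A, (Nb u).Infinite) :
    ∃ c : V → Bool, (∀ u ∈ A, {v | v ∈ Nb u ∧ c v ≠ c u}.Infinite) ∧
      (∀ u ∈ P, u ∉ A → c u = true) ∧ (∀ v, v ∉ T → v ∉ P → c v = false) ∧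
      ∀ v ∈ T, 0 ≤ E Γ c {v} := by
  have hcomp : CompactSpace ↥(Sp Γ T P f A) :=
    isCompact_iff_compactSpace.1 (isClosed_Sp A).isCompact
  have hne : Nonempty ↥(Sp Γ T P f A) := (nonempty_Sp h A).to_subtype
  have hfin : ∀ (u : V) (t : ↥(Sp Γ T P f A)),
      {v | (tog Γ T P f (f u) t.1).2 0 v ≠ t.1.2 0 v}.Finite := by
    intro u t
    have h1 : ({v | down Γ T P f (Function.update t.1.1 (f u) (!(t.1.1 (f u)))) (t.1.2 (f u + 1))
        0 (f u + 1) v ≠ t.1.2 (f u + 1) v}).Finite := down_finite h (f u + 1) 0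
    have h2 : ({v | down Γ T P f t.1.1 (t.1.2 (f u + 1)) 0 (f u + 1) v
        ≠ t.1.2 (f u + 1) v}).Finite := down_finite h (f u + 1) 0
    have h3 := th_down t.2.1.1 (f u + 1) 0
    rw [zero_add] at h3
    rw [← h3] at h2
    refine (h1.union h2).subset ?_
    intro v hv
    by_contra hn
    rw [Set.mem_union, not_or] at hn
    have e1 : down Γ T P f (Function.update t.1.1 (f u) (!(t.1.1 (f u)))) (t.1.2 (f u + 1))
        0 (f u + 1) v = t.1.2 (f u + 1) v := by
      by_contra h4; exact hn.1 h4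
    have e2 : t.1.2 0 v = t.1.2 (f u + 1) v := by
      by_contra h4; exact hn.2 h4
    refine hv ?_
    show (tog Γ T P f (f u) t.1).2 0 v = t.1.2 0 v
    rw [e2]
    show (if 0 ≤ f u then down Γ T P f (Function.update t.1.1 (f u) (!(t.1.1 (f u))))
      (t.1.2 (f u + 1)) 0 (f u + 1 - 0) else t.1.2 0) v = _
    rw [if_pos (Nat.zero_le _), Nat.sub_zero]
    exact e1
  let g : V → ↥(Sp Γ T P f A) → ↥(Sp Γ T P f A) := fun u t =>
    if hu : u ∈ A then ⟨tog Γ T P f (f u) t.1,
      ⟨h.tog_mem t.2.1.1 (f u), tog_OC t.2.1.2 (f u)⟩, by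
      intro v hv hvA
      rw [tog_ne]
      · exact t.2.2 v hv hvA
      · intro h1
        exact hvA (h.inj h1 ▸ hu)⟩ else t
  have hg : ∀ u ∈ A, ∀ t, (g u t).1 = tog Γ T P f (f u) t.1 := by
    intro u hu t
    simp only [g, dif_pos hu]
  obtain ⟨t, ht⟩ := select (Θ := ↥(Sp Γ T P f A))
    (g := g)
    (z := fun u t => t.1.1 (f u)) (Col := fun v t => t.1.2 0 v) (Nb := Nb) (A := A)
    (fun u hu => by
      rw [Topology.IsInducing.subtypeVal.continuous_iff]
      have : (Subtype.val ∘ g u) = fun t => tog Γ T P f (f u) t.1 := funext fun t => hg u hu t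
      rw [this]
      exact (continuous_tog (f u)).comp continuous_subtype_val)
    (fun u _ => (continuous_apply (f u)).comp (continuous_fst.comp continuous_subtype_val))
    (fun u hu t => by
      show (g u t).1.1 (f u) = _
      rw [hg u hu, tog_self])
    (fun u hu w _ huw t => by
      show (g u t).1.1 (f w) = _
      rw [hg u hu, tog_ne (fun h' => huw (h.inj h'))])
    (fun v => (continuous_apply v).comp ((continuous_apply 0).comp
      (continuous_snd.comp continuous_subtype_val)))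
    (fun u hu t => by
      have := hfin u t
      rw [← hg u hu] at this
      exact this) hNb
  refine ⟨t.1.2 0, fun u hu => ?_, fun u hu huA => ?_, fun v hT hP => t.2.1.2 0 v hT hP, ?_⟩
  · have h1 := ht u hu
    have h2 := h.th_petal t.2.1.1 (hA hu)
    refine h1.mono ?_
    rintro v ⟨hv1, hv2⟩
    refine ⟨hv1, ?_⟩
    rw [h2]
    exact hv2
  · rw [h.th_petal t.2.1.1 hu]
    exact t.2.2 u hu huA
  · exact (t.2.1.1 0).1.2.1

end UnfThird
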